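import Pool.Agent.NTW.StmtsA

/-!
# Squad NTW (MP_e54c4c_gt), row EXR (helper44): extreme rays of a full pair box
-/

set_option autoImplicit false

open Matrix Filter Topology

namespace Pool.Agent.NTW.H44

open Pool.Agent.PFS Pool.Agent.PFJ Pool.Agent.NTS Pool.Agent.NTW

theorem neg_coeff (nng : NngStmt) {n K : ℕ} {C : Set (V n)} (hP : PCone C) {w : Fin K → V n}
    (hw : PES C w) {i j : Fin K} (hij : i ≠ j) (M : ℝ) : M • w i - w j ∉ closure C := by
  classical
  intro h
  have e : ∑ m, (if m = i then M else if m = j then (-1 : ℝ) else 0) • w m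
      = M • w i - w j := by
    rw [← Finset.add_sum_erase _ _ (Finset.mem_univ i),
      ← Finset.add_sum_erase _ _ (Finset.mem_erase.mpr ⟨hij.symm, Finset.mem_univ j⟩),
      Finset.sum_eq_zero]
    · rw [if_pos rfl, if_neg hij.symm, if_pos rfl, neg_one_smul]
      abel
    · intro m hm
      rw [Finset.mem_erase, Finset.mem_erase] at hm
      rw [if_neg hm.2.1, if_neg hm.1, zero_smul]
  have h1 := nng n C hP (Fin K) w hw (fun m => if m = i then M else if m = j then (-1 : ℝ) else 0)
    (e ▸ h) j
  simp only [if_neg hij.symm, if_true] at h1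
  linarith

theorem exr (nng : NngStmt) (fcs : FcsStmt) (pbf : PbfStmt) (bxt : BxtStmt) : ExrStmt := by
  intro n C Γ hCC K hK hMax w hw i j hij hPB hdim
  have hP : PCone C := hCC.toPCone
  obtain ⟨hL, -, -⟩ := pbf n C hP K w hw.1 i j hij
  obtain ⟨hunit, -, -, -, -, -⟩ := hL _ hPB
  have hx₀ : w i + w j ∈ closure C := hP.cl_add (hw.1.cl i) (hw.1.cl j)
  obtain ⟨-, hfc, -, -, -⟩ := fcs n C hP (w i + w j) hx₀
  refine ⟨?_, ?_, ?_, ?_⟩
  · intro h
    obtain ⟨M, -, hM⟩ := h.2.2 (w j) hPB.right
    exact neg_coeff nng hP hw.1 hij M hM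
  · intro h
    obtain ⟨M, -, hM⟩ := h.2.2 (w i) hPB.left
    exact neg_coeff nng hP hw.1 hij.symm M hM
  · intro e he hecl hne y hy M hM
    by_cases hM0 : M ≤ 0
    · have h1 := hP.cl_add hM (hP.cl_smul hecl (by linarith : 0 ≤ -M))
      have e1 : M • e - y + -M • e = -y := by
        rw [neg_smul]
        abel
      rw [e1] at h1
      exact ⟨0, by rw [hP.salient y hy h1, zero_smul]⟩
    · have hMp : 0 < M := not_le.mp hM0
      obtain ⟨M', hM', hM'c⟩ := hunit.2.2 e he
      have hyF : y ∈ Fs C (w i) (w j) := by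
        apply hfc y hy (M * M')
        have h1 := hP.cl_add (hP.cl_smul hM'c hMp.le) hM
        have e1 : M • (M' • (w i + w j) - e) + (M • e - y) = (M * M') • (w i + w j) - y := by
          rw [smul_sub, smul_smul]
          abel
        rw [e1] at h1
        exact h1
      by_cases hind : Ind2 e y
      · exfalso
        have h1 := bxt n C Γ hCC K hK hMax w hw i j hij _ hPB hdim e he y hyF hecl hy hind
        obtain ⟨-, h2, -⟩ := Pool.Agent.PFJ.H76.unf n C hP _ _ h1
        have h3 : Unt C (Fs C (w i) (w j)) ((1 + M) • e) := by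
          apply h2 _ (Submodule.smul_mem _ _ he)
          have e1 : (1 + M) • e - (e + y) = M • e - y := by
            rw [add_smul, one_smul]
            abel
          rw [e1]
          exact hM
        obtain ⟨h4, -⟩ := Pool.Agent.PFJ.H76.unf n C hP _ _ h3
        have h5 := h4 (1 + M)⁻¹ (by positivity)
        rw [smul_smul, inv_mul_cancel₀ (by positivity), one_smul] at h5
        exact hne h5
      · have hex : ∃ α γ : ℝ, α • e + γ • y = 0 ∧ ¬ (α = 0 ∧ γ = 0) := by
          by_contra hcon
          apply hind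
          intro α γ hαγ
          by_contra h
          exact hcon ⟨α, γ, hαγ, h⟩
        obtain ⟨α, γ, hαγ, hnz⟩ := hex
        by_cases hγ : γ = 0
        · have hα : α ≠ 0 := fun h => hnz ⟨h, hγ⟩
          rw [hγ, zero_smul, add_zero] at hαγ
          have he0 : e = 0 := (smul_eq_zero.mp hαγ).resolve_left hα
          rw [he0, smul_zero, zero_sub] at hM
          exact ⟨0, by rw [hP.salient y hy hM, zero_smul]⟩
        · refine ⟨-(α / γ), ?_⟩
          have h1 : γ • y = -(α • e) := by
            rw [add_comm] at hαγ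
            exact eq_neg_of_add_eq_zero_left hαγ
          have h2 : y = γ⁻¹ • (γ • y) := by
            rw [smul_smul, inv_mul_cancel₀ hγ, one_smul]
          rw [h2, h1, smul_neg, smul_smul, neg_smul]
          congr 2
          field_simp
  · intro e he hext hun
    obtain ⟨-, -, -, -, -, h6⟩ := Pool.Agent.PFJ.H76.unf n C hP _ _ hun
    have hle : Fs C (w i) (w j) ≤ Submodule.span ℝ ({e} : Set (V n)) := by
      intro z hz
      obtain ⟨c, hc⟩ := h6 hext z hz
      rw [hc]
      exact Submodule.smul_mem _ _ (Submodule.mem_span_singleton_self e)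
    have h1 := Submodule.finrank_mono hle
    have h2 : Module.finrank ℝ (Submodule.span ℝ ({e} : Set (V n))) ≤ 1 := by
      have h3 := finrank_span_le_card (R := ℝ) ({e} : Set (V n))
      simpa using h3
    omega

end Pool.Agent.NTW.H44
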