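import Pool.Agent.NTW.StmtsB

/-!
# Squad NTW (MP_e54c4c_gt), row HIN (helper44): dominating vertices are in the other box
-/

set_option autoImplicit false

open Matrix Filter Topology

namespace Pool.Agent.NTW.H44

open Pool.Agent.PFS Pool.Agent.PFJ Pool.Agent.NTS Pool.Agent.NTW

theorem sum_tau {K : ℕ} {A : Type*} [AddCommMonoid A] {τ : Fin K → Fin K}
    (hτ : ∀ i, τ (τ i) = i) (f : Fin K → A) : ∑ i, f (τ i) = ∑ i, f i := by
  have h : Function.Involutive τ := hτ
  exact Equiv.sum_comp h.toPerm f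

theorem hin (dcp : DcpStmt) (eiw : EiwStmt) : HinStmt := by
  classical
  intro n C Γ K c τ hD v v' ν M H i hm
  obtain ⟨m, hmi, hνm⟩ := hm
  have hP : PCone C := hD.toCC.toPCone
  obtain ⟨d1, d2, -, d4, -, -, -⟩ := dcp n C Γ K c τ hD v' H.tv'
  obtain ⟨-, -, e3, -⟩ := eiw n C Γ K c τ hD v H.tv
  obtain ⟨-, -, e3', -⟩ := eiw n C Γ K c τ hD v' H.tv'
  have hinv : ∀ l, τ (τ l) = l := hD.toTau.inv
  -- the directions
  obtain ⟨B, hB0, hB⟩ : ∃ B : ℝ, 0 ≤ B ∧ 0 < ν i - B * ν m := by
    refine ⟨(|ν i| + 1) / (-ν m), div_nonneg (by positivity) (by linarith), ?_⟩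
    have e : (|ν i| + 1) / (-ν m) * ν m = -(|ν i| + 1) := by
      have : ν m ≠ 0 := ne_of_lt hνm
      field_simp
    rw [e]
    have := neg_abs_le (ν i)
    linarith
  obtain ⟨t, ht⟩ : ∃ t : ℕ → Fin K → ℝ, ∀ N l, t N l =
      if l = i then ((N : ℝ) + 1) else if l = m then -(B * ((N : ℝ) + 1)) else 0 :=
    ⟨fun N l => if l = i then ((N : ℝ) + 1) else if l = m then -(B * ((N : ℝ) + 1)) else 0,
      fun _ _ => rfl⟩
  have htpos : ∀ N, 0 < ∑ l, ν l * t N l := by
    intro N
    have e : ∑ l, ν l * t N l = ν i * t N i + ν m * t N m := by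
      rw [← Finset.add_sum_erase _ _ (Finset.mem_univ i),
        ← Finset.add_sum_erase _ _ (Finset.mem_erase.mpr ⟨hmi, Finset.mem_univ m⟩),
        Finset.sum_eq_zero]
      · ring
      · intro l hl
        rw [Finset.mem_erase, Finset.mem_erase] at hl
        rw [ht, if_neg hl.2.1, if_neg hl.1, mul_zero]
    rw [e, ht, ht, if_pos rfl, if_neg hmi, if_pos rfl]
    have e2 : ν i * ((N : ℝ) + 1) + ν m * -(B * ((N : ℝ) + 1))
        = ((N : ℝ) + 1) * (ν i - B * ν m) := by ring
    rw [e2]
    exact mul_pos (by positivity) hB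
  have htle : ∀ N l, l ≠ i → t N l ≤ 0 := by
    intro N l hl
    rw [ht, if_neg hl]
    by_cases h : l = m
    · rw [if_pos h]
      have : 0 ≤ B * ((N : ℝ) + 1) := by positivity
      linarith
    · rw [if_neg h]
  have hti : ∀ N, t N i = (N : ℝ) + 1 := by
    intro N
    rw [ht, if_pos rfl]
  choose x hx hlab using fun N => H.near (t N) (htpos N)
  -- the sequence `exp (-(N+1))`
  obtain ⟨ε, hε⟩ : ∃ ε : ℕ → ℝ, ∀ N, ε N = Real.exp (-((N : ℝ) + 1)) := ⟨_, fun _ => rfl⟩
  have hεpos : ∀ N, 0 < ε N := fun N => by rw [hε]; exact Real.exp_pos _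
  have hεlim : Tendsto ε atTop (𝓝 0) := by
    have h1 : Tendsto (fun N : ℕ => ((N : ℝ) + 1)) atTop atTop :=
      tendsto_atTop_add_const_right _ _ tendsto_natCast_atTop_atTop
    have h2 := Real.tendsto_exp_neg_atTop_nhds_zero.comp h1
    have e : ε = (fun x : ℝ => Real.exp (-x)) ∘ fun N : ℕ => ((N : ℝ) + 1) := by
      funext N
      rw [hε]
      rfl
    rw [e]
    exact h2
  have hεi : ∀ N, ε N * Real.exp (t N i) = 1 := by
    intro N
    rw [hε, hti, ← Real.exp_add]
    simp
  have hεl : ∀ N l, l ≠ i → ε N * Real.exp (t N l) ≤ ε N := by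
    intro N l hl
    have h1 : Real.exp (t N l) ≤ 1 := Real.exp_le_one_iff.mpr (htle N l hl)
    have := hεpos N
    nlinarith
  -- the points of the flat
  obtain ⟨s, hs⟩ : ∃ s : ℕ → V n, ∀ N, s N = ε N • xt v (t N) := ⟨_, fun _ => rfl⟩
  have hslim : Tendsto s atTop (𝓝 (v i)) := by
    have h1 : ∀ l, Tendsto (fun N => (ε N * Real.exp (t N l)) • v l) atTop
        (𝓝 ((if l = i then (1 : ℝ) else 0) • v l)) := by
      intro l
      apply Tendsto.smul_const
      by_cases h : l = i
      · rw [if_pos h, h]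
        have e : (fun N => ε N * Real.exp (t N i)) = fun _ => (1 : ℝ) := by
          funext N
          exact hεi N
        rw [e]
        exact tendsto_const_nhds
      · rw [if_neg h]
        exact squeeze_zero (fun N => mul_nonneg (hεpos N).le (Real.exp_pos _).le)
          (fun N => hεl N l h) hεlim
    have h2 := tendsto_finsetSum Finset.univ fun l _ => h1 l
    have e1 : ∑ l, (if l = i then (1 : ℝ) else 0) • v l = v i := by
      rw [Finset.sum_eq_single i]
      · rw [if_pos rfl, one_smul]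
      · intro l _ hl
        rw [if_neg hl, zero_smul]
      · intro h
        exact absurd (Finset.mem_univ i) h
    rw [e1] at h2
    have e2 : s = fun N => ∑ l, (ε N * Real.exp (t N l)) • v l := by
      funext N
      rw [hs]
      unfold xt
      rw [Finset.smul_sum]
      exact Finset.sum_congr rfl fun l _ => by rw [smul_smul]
    rw [e2]
    exact h2
  have hxtC : ∀ N, xt v (t N) ∈ C := fun N => H.tv.pes.1.pos _ fun l => Real.exp_pos _
  have hsC : ∀ N, s N ∈ closure C := fun N => by
    rw [hs]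
    exact hP.cl_smul (subset_closure (hxtC N)) (hεpos N).le
  -- `M ≥ 1`
  have hM1 : 1 ≤ M := by
    by_contra hcon
    have h1 := hP.cl_add (hx 0).lo (hx 0).up
    have e : (∑ l, x 0 l) - xt v (t 0) + (M • xt v (t 0) - ∑ l, x 0 l)
        = -((1 - M) • xt v (t 0)) := by
      rw [sub_smul, one_smul]
      abel
    rw [e] at h1
    have h2 : (1 - M) • xt v (t 0) ∈ C := hP.smul _ (hxtC 0) _ (by linarith)
    exact hP.ne_zero h2 (hP.salient _ (subset_closure h2) h1)
  have hM0 : 0 < M := by linarith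
  -- the components
  obtain ⟨z, hz⟩ : ∃ z : ℕ → Fin K → V n, ∀ N l, z N l =
      (ε N / 2) • (x N l + x N (τ l)) := ⟨fun N l => (ε N / 2) • (x N l + x N (τ l)), fun _ _ => rfl⟩
  have hxcl : ∀ N, ∑ l, x N l ∈ closure C := fun N =>
    hP.cl_of_le (subset_closure (hxtC N)) (hx N).lo
  have hzcl : ∀ N l, z N l ∈ closure C := by
    intro N l
    rw [hz]
    exact hP.cl_smul (d4 (x N) (hx N).mem (hxcl N) l) (by have := hεpos N; positivity)
  have hzL : ∀ N l, z N l ∈ Lf C τ v' l := by
    intro N l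
    rw [hz]
    apply Submodule.smul_mem
    apply Submodule.add_mem _ ((hx N).mem l)
    have := (hx N).mem (τ l)
    rw [d2] at this
    exact this
  have hzsum : ∀ N, ∑ l, z N l = ε N • ∑ l, x N l := by
    intro N
    have e : ∑ l, z N l = (ε N / 2) • ∑ l, (x N l + x N (τ l)) := by
      rw [Finset.smul_sum]
      exact Finset.sum_congr rfl fun l _ => hz N l
    rw [e, Finset.sum_add_distrib, sum_tau hinv (x N), ← two_smul ℝ (∑ l, x N l), smul_smul]
    congr 1
    ring
  have hlo : ∀ N, ∑ l, z N l - s N ∈ closure C := by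
    intro N
    rw [hzsum, hs, ← smul_sub]
    exact hP.cl_smul (hx N).lo (hεpos N).le
  have hup : ∀ N, M • s N - ∑ l, z N l ∈ closure C := by
    intro N
    rw [hzsum, hs, smul_comm, ← smul_sub]
    exact hP.cl_smul (hx N).up (hεpos N).le
  have hzle : ∀ N l, ∑ l, z N l - z N l ∈ closure C := by
    intro N l
    have e : ∑ l, z N l - z N l = ∑ l' ∈ Finset.univ.erase l, z N l' := by
      rw [← Finset.add_sum_erase _ _ (Finset.mem_univ l)]
      abel
    rw [e]
    exact hP.cl_sum fun l' _ => hzcl N l'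
  have hzs : ∀ N l, M • s N - z N l ∈ closure C := fun N l =>
    hP.le_trans (hzle N l) (hup N)
  -- boundedness
  obtain ⟨R, hR0, hR⟩ : ∃ R : ℝ, 0 ≤ R ∧ ∀ N, ‖z N‖ ≤ R := by
    obtain ⟨B', hB', hn⟩ := hP.normal
    obtain ⟨R0, hR0⟩ := hslim.norm.bddAbove_range
    have h1 : ∀ N, ‖s N‖ ≤ R0 := fun N => hR0 ⟨N, rfl⟩
    have h2 : 0 ≤ R0 := (norm_nonneg _).trans (h1 0)
    refine ⟨B' * (M * R0), by positivity, fun N => ?_⟩
    rw [pi_norm_le_iff_of_nonneg (by positivity)]
    intro l
    refine (hn _ _ (hzcl N l) (hzs N l)).trans ?_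
    rw [norm_smul, Real.norm_of_nonneg hM0.le]
    exact mul_le_mul_of_nonneg_left (mul_le_mul_of_nonneg_left (h1 N) hM0.le) hB'.le
  obtain ⟨Z, -, φ, hφ, hZ⟩ := tendsto_subseq_of_bounded (x := z)
    (Metric.isBounded_closedBall (x := (0 : Fin K → V n)) (r := R))
    (fun N => by rw [mem_closedBall_zero_iff]; exact hR N)
  have hZl : ∀ l, Tendsto (fun N => z (φ N) l) atTop (𝓝 (Z l)) := fun l =>
    (tendsto_pi_nhds.mp hZ) l
  have hZcl : ∀ l, Z l ∈ closure C := fun l =>
    isClosed_closure.mem_of_tendsto (hZl l) (Eventually.of_forall fun N => hzcl _ l)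
  have hZL : ∀ l, Z l ∈ Lf C τ v' l := fun l =>
    (Submodule.closed_of_finiteDimensional (Lf C τ v' l)).mem_of_tendsto (hZl l)
      (Eventually.of_forall fun N => hzL _ l)
  have hsφ : Tendsto (fun N => s (φ N)) atTop (𝓝 (v i)) := hslim.comp hφ.tendsto_atTop
  have hZM : ∀ l, M • v i - Z l ∈ closure C := fun l =>
    isClosed_closure.mem_of_tendsto ((hsφ.const_smul M).sub (hZl l))
      (Eventually.of_forall fun N => hzs _ l)
  have hZsum : ∑ l, Z l - v i ∈ closure C :=
    isClosed_closure.mem_of_tendsto ((tendsto_finsetSum Finset.univ fun l _ => hZl l).sub hsφ)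
      (Eventually.of_forall fun N => hlo _)
  have hZα : ∀ l, ∃ α : ℝ, Z l = α • v i := fun l => (e3 i).1 (Z l) (hZcl l) M (hZM l)
  constructor
  · intro hτi
    -- single vertex
    have hlow : ∀ N, z N i - (1 / M) • v' i ∈ closure C := by
      intro N
      obtain ⟨b, hb1, hb2, hb3⟩ := hlab N i hτi
      have e : z N i - (1 / M) • v' i = (ε N * b - 1 / M) • v' i := by
        rw [hz, hτi, hb1, ← two_smul ℝ (b • v' i), smul_smul, smul_smul, sub_smul]
        congr 2
        ring
      rw [e]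
      apply hP.cl_smul (e3' i).2.1
      have h1 : 1 ≤ M * (ε N * b) := by
        calc (1 : ℝ) = ε N * Real.exp (t N i) := (hεi N).symm
          _ ≤ ε N * (M * b) := mul_le_mul_of_nonneg_left hb2 (hεpos N).le
          _ = _ := by ring
      rw [sub_nonneg, div_le_iff₀ hM0]
      linarith
    have hlowZ : Z i - (1 / M) • v' i ∈ closure C :=
      isClosed_closure.mem_of_tendsto ((hZl i).sub tendsto_const_nhds)
        (Eventually.of_forall fun N => hlow _)
    obtain ⟨α, hα⟩ := hZα i
    have h2 : (M * α) • v i - v' i ∈ closure C := by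
      have h3 := hP.cl_smul hlowZ hM0.le
      rw [smul_sub, smul_smul, mul_one_div_cancel hM0.ne', one_smul, hα, smul_smul] at h3
      exact h3
    obtain ⟨r, hr⟩ := (e3 i).1 (v' i) (e3' i).2.1 _ h2
    refine ⟨r, ?_, hr⟩
    rcases lt_trichotomy r 0 with h | h | h
    · exfalso
      apply (e3' i).2.2
      apply hP.salient _ (e3' i).2.1
      rw [hr, ← neg_smul]
      exact hP.cl_smul (e3 i).2.1 (by linarith)
    · exfalso
      apply (e3' i).2.2
      rw [hr, h, zero_smul]
    · exact h
  · intro hτi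
    have hZ0 : ∀ l, τ l = l → Z l = 0 := by
      intro l hl
      have hli : l ≠ i := by
        rintro rfl
        exact hτi hl
      have h1 : ∀ N, (M * ε N) • v' l - z N l ∈ closure C := by
        intro N
        obtain ⟨b, hb1, hb2, hb3⟩ := hlab N l hl
        have e : (M * ε N) • v' l - z N l = (M * ε N - ε N * b) • v' l := by
          rw [hz, hl, hb1, ← two_smul ℝ (b • v' l), smul_smul, smul_smul, sub_smul]
          congr 2
          ring
        rw [e]
        apply hP.cl_smul (e3' l).2.1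
        have h2 : b ≤ M := by
          refine hb3.trans ?_
          have h3 : Real.exp (t N l) ≤ 1 := Real.exp_le_one_iff.mpr (htle N l hli)
          nlinarith
        have h4 := mul_le_mul_of_nonneg_left h2 (hεpos N).le
        linarith
      have h2 : Tendsto (fun N => (M * ε (φ N)) • v' l - z (φ N) l) atTop
          (𝓝 ((M * 0) • v' l - Z l)) :=
        (((hεlim.comp hφ.tendsto_atTop).const_mul M).smul_const (v' l)).sub (hZl l)
      have h3 := isClosed_closure.mem_of_tendsto h2 (Eventually.of_forall fun N => h1 (φ N))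
      rw [mul_zero, zero_smul, zero_sub] at h3
      exact hP.salient _ (hZcl l) h3
    have hex : ∃ l, Z l ≠ 0 := by
      by_contra hcon
      have hall : ∀ l, Z l = 0 := fun l => by
        by_contra h
        exact hcon ⟨l, h⟩
      rw [Finset.sum_eq_zero fun l _ => hall l, zero_sub] at hZsum
      exact (e3 i).2.2 (hP.salient _ (e3 i).2.1 hZsum)
    obtain ⟨l, hl⟩ := hex
    refine ⟨l, fun h => hl (hZ0 l h), ?_⟩
    obtain ⟨α, hα⟩ := hZα l
    have hα0 : α ≠ 0 := by
      rintro rfl
      exact hl (by rw [hα, zero_smul])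
    have e : v i = α⁻¹ • Z l := by
      rw [hα, smul_smul, inv_mul_cancel₀ hα0, one_smul]
    rw [e]
    exact Submodule.smul_mem _ _ (hZL l)

end Pool.Agent.NTW.H44
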